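import Pool.Agent.H3.SQ.MainNu
import Pool.Graph.R_seed8.Results.MP_ace702_lc.NotBothAtOmegaTwo

/-!
# Square with few clubs: partitions into stationary sets which do not reflect simultaneously

`acc`, `IsClubIn`, `IsStationaryIn`, `IsCoherentSeq`, `IsThread`, `SquareLt` (`□(lam, < eta)`),
`ReflectsAt` and `ReflLt` (`Refl(< kappa, S)`) are the definitions of the starting library
(`Pool/Graph/R_seed8/W877/Sq/Defs.lean`).

Let `ν` be an infinite cardinal, `λ > ν⁺` regular, `C` a coherent sequence of length `λ` and of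
width `< λ` without a thread, and `S ⊆ λ` a stationary set such that `|C_α| ≤ ν` for all `α ∈ S`.
Then `S` has a partition into stationary sets `P b n` (`b < λ`, `n < ν`) such that for every `b` and
every `α < λ` there are `ν` many `n` such that `P b n` does not reflect at `α`. So `□(ω₂, ω)`
refutes `Refl(ℵ₀, S^{ω₂}_ω)` (answer to Q1), and every stationary subset of `ω₂` has such a
partition with `ν = ℵ₀`.
-/

set_option autoImplicit false
set_option linter.deprecated false

universe u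

open Cardinal

namespace Pool.Agent.Results.MP_ace702_lc.NonreflectingPartitions

open Pool.Agent.W877.Sq

/-- The set of all ordinals below `ω₂` of countable cofinality (equal to `ω`). -/
def Somega : Set Ordinal.{u} := {α | α < (ℵ_ 2).ord ∧ α.cof = ℵ₀}

/-- `S` has a partition into stationary subsets `P b n` of `lam` (`b < lam`, `n < nu`) such that for
all `b < lam` and all `α < lam` there are `nu` many `n < nu` such that `P b n` does not reflect at
`α`. -/
def Splits (lam nu : Cardinal.{u}) (S : Set Ordinal.{u}) : Prop :=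
  ∃ P : Set.Iio lam.ord → Set.Iio nu.ord → Set Ordinal.{u},
    (∀ b n, IsStationaryIn (P b n) lam.ord) ∧
    (∀ b n b' n', (b, n) ≠ (b', n') → Disjoint (P b n) (P b' n')) ∧
    (⋃ b, ⋃ n, P b n) = S ∧
    ∀ b, ∀ α < lam.ord, #{n | ¬ ReflectsAt (P b n) α} = Cardinal.lift.{u + 1} nu

theorem not_refl {lam nu : Cardinal.{u}} (h0 : ℵ₀ ≤ lam) (hnu : ℵ₀ ≤ nu) {S : Set Ordinal.{u}}
    (h : Splits lam nu S) : ¬ ReflLt lam (Order.succ nu) S := by
  obtain ⟨P, hP, _, hU, hα⟩ := h
  intro hR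
  have hpos : (0 : Ordinal.{u}) < lam.ord := by
    have h1 : Ordinal.omega0 ≤ lam.ord := by
      rw [← Cardinal.ord_aleph0]
      exact Cardinal.ord_le_ord.2 h0
    exact Ordinal.omega0_pos.trans_le h1
  let b : Set.Iio lam.ord := ⟨0, hpos⟩
  obtain ⟨α, hαl, hall⟩ := hR (Set.range (P b)) (by
    rw [Cardinal.lift_succ, Order.lt_succ_iff]
    refine mk_range_le.trans ?_
    rw [Cardinal.mk_Iio_ordinal, card_ord]) (by
    rintro _ ⟨n, rfl⟩
    refine ⟨?_, hP b n⟩
    rw [← hU]
    exact (Set.subset_iUnion (fun n => P b n) n).trans (Set.subset_iUnion (fun b => ⋃ n, P b n) b))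
  have hne : #{n | ¬ ReflectsAt (P b n) α} ≠ 0 := by
    rw [hα b α hαl]
    exact ((Cardinal.aleph0_pos).trans_le (aleph0_le_lift.2 hnu)).ne'
  obtain ⟨n, hn⟩ := Cardinal.mk_ne_zero_iff.1 hne
  exact hn (hall _ ⟨n, rfl⟩)

/-- (1) Threadless coherent sequences `C` of regular length `λ` and width `< λ`, and an infinite
cardinal `ν` with `ν⁺ < λ`: every stationary set `S` such that `|C_α| ≤ ν` for all `α ∈ S` has a
partition as in `Splits`.
(2) If `□(λ, ν)` holds, `λ` regular, `ν` infinite and `ν⁺ < λ`, then every stationary subset `S` of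
`λ` has such a partition, and `Refl(ν, S)` fails.
(3) If `□(ω₂, ω)` holds, then `S^{ω₂}_ω` has such a partition, and `Refl(ℵ₀, S^{ω₂}_ω)` fails. -/
theorem result :
    (∀ lam nu : Cardinal.{u}, lam.IsRegular → ℵ₀ ≤ nu → Order.succ nu < lam →
      ∀ C : Ordinal.{u} → Set (Set Ordinal.{u}), IsCoherentSeq lam lam C →
      (¬ ∃ D, IsThread lam C D) →
      ∀ S : Set Ordinal.{u}, IsStationaryIn S lam.ord →
        (∀ α ∈ S, #(C α) ≤ Cardinal.lift.{u + 1} nu) → Splits lam nu S) ∧
    (∀ lam nu : Cardinal.{u}, lam.IsRegular → ℵ₀ ≤ nu → Order.succ nu < lam →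
      SquareLt lam (Order.succ nu) → ∀ S : Set Ordinal.{u}, IsStationaryIn S lam.ord →
        Splits lam nu S ∧ ¬ ReflLt lam (Order.succ nu) S) ∧
    (SquareLt.{u} (ℵ_ 2) (ℵ_ 1) →
      Splits (ℵ_ 2) ℵ₀ Somega.{u} ∧ ¬ ReflLt (ℵ_ 2) (ℵ_ 1) Somega.{u}) := by
  have h1 : ∀ lam nu : Cardinal.{u}, lam.IsRegular → ℵ₀ ≤ nu → Order.succ nu < lam →
      ∀ C : Ordinal.{u} → Set (Set Ordinal.{u}), IsCoherentSeq lam lam C →
      (¬ ∃ D, IsThread lam C D) →
      ∀ S : Set Ordinal.{u}, IsStationaryIn S lam.ord →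
        (∀ α ∈ S, #(C α) ≤ Cardinal.lift.{u + 1} nu) → Splits lam nu S :=
    fun lam nu hreg hnu hnl C hC hno S hS hc =>
      Pool.Agent.H3.SQ.main_nu hnu hnl hreg hC hno hS hc
  have h2 : ∀ lam nu : Cardinal.{u}, lam.IsRegular → ℵ₀ ≤ nu → Order.succ nu < lam →
      SquareLt lam (Order.succ nu) → ∀ S : Set Ordinal.{u}, IsStationaryIn S lam.ord →
        Splits lam nu S ∧ ¬ ReflLt lam (Order.succ nu) S := by
    rintro lam nu hreg hnu hnl ⟨C, hC, hno⟩ S hS
    have hs : Splits lam nu S := by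
      refine h1 lam nu hreg hnu hnl C ⟨hC.nonempty, hC.club, ?_, hC.coherent⟩ hno S hS ?_
      · intro α hα
        exact (hC.width α hα).trans (Cardinal.lift_lt.2 hnl)
      · intro α hα
        have h := hC.width α (hS.1 hα)
        rw [Cardinal.lift_succ, Order.lt_succ_iff] at h
        exact h
    exact ⟨hs, not_refl hreg.aleph0_le hnu hs⟩
  refine ⟨h1, h2, fun hsq => ?_⟩
  have hlt : Order.succ (ℵ₀ : Cardinal.{u}) < ℵ_ 2 := by
    rw [NotBothAtOmegaTwo.succ_zero_eq]
    exact NotBothAtOmegaTwo.one_lt_two'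
  have hst : IsStationaryIn (Somega.{u}) (ℵ_ 2).ord := NotBothAtOmegaTwo.stat_Somega
  have h3 := h2 (ℵ_ 2) ℵ₀ NotBothAtOmegaTwo.reg_two le_rfl hlt
  rw [NotBothAtOmegaTwo.succ_zero_eq] at h3
  exact h3 hsq _ hst

end Pool.Agent.Results.MP_ace702_lc.NonreflectingPartitions
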